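import Pool.Agent.Q167.HT.Attr

/-!
# MP_a3bfa4_an, Q1 (negated form): a spectral self-affine measure without overlap, even with a simple digit
set, and without Hadamard triple
-/

set_option autoImplicit false

open MeasureTheory Set Matrix
open scoped ENNReal Real

namespace Pool.Agent.Results.MP_a3bfa4_an.SimpleDigits

variable {d : ℕ}

/-- `x ↦ R⁻¹ (x + b)` -/
noncomputable def tau (R : Matrix (Fin d) (Fin d) ℤ) (b : Fin d → ℤ) (x : Fin d → ℝ) : Fin d → ℝ :=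
  (R.map (Int.cast : ℤ → ℝ))⁻¹ *ᵥ (x + fun i => (b i : ℝ))

/-- all eigenvalues of `R` have modulus greater than one -/
def Expanding (R : Matrix (Fin d) (Fin d) ℤ) : Prop :=
  ∀ z : ℂ, (R.map (Int.cast : ℤ → ℂ)).charpoly.IsRoot z → 1 < ‖z‖

/-- `μ` is the equal-weight self-affine probability measure of `(R, B)` -/
def IsSelfAffine (R : Matrix (Fin d) (Fin d) ℤ) (B : Finset (Fin d → ℤ)) (μ : Measure (Fin d → ℝ)) : Prop :=
  IsProbabilityMeasure μ ∧ μ = ((B.card : ℝ≥0∞)⁻¹) • ∑ b ∈ B, μ.map (tau R b)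

/-- `T` is the attractor of `(R, B)` -/
def IsAttractor (R : Matrix (Fin d) (Fin d) ℤ) (B : Finset (Fin d → ℤ)) (T : Set (Fin d → ℝ)) : Prop :=
  IsCompact T ∧ T.Nonempty ∧ T = ⋃ b ∈ B, tau R b '' T

/-- no overlap with respect to the set `T` -/
def NoOverlap (R : Matrix (Fin d) (Fin d) ℤ) (B : Finset (Fin d → ℤ)) (μ : Measure (Fin d → ℝ))
    (T : Set (Fin d → ℝ)) : Prop :=
  ∀ b ∈ B, ∀ b' ∈ B, b ≠ b' → μ (tau R b '' T ∩ tau R b' '' T) = 0

/-- the exponential `e^{2πi⟨l,x⟩}` -/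
noncomputable def expo (l x : Fin d → ℝ) : ℂ := Complex.exp (2 * π * Complex.I * ((∑ i, l i * x i : ℝ) : ℂ))

/-- the exponentials with frequencies in some set `Λ` are orthonormal and complete in `L²(μ)` -/
def Spectral (μ : Measure (Fin d → ℝ)) : Prop :=
  ∃ Λ : Set (Fin d → ℝ),
    (∀ l ∈ Λ, ∀ l' ∈ Λ, ∫ x, expo (l - l') x ∂μ = if l = l' then 1 else 0) ∧
    ∀ f : (Fin d → ℝ) → ℂ, MemLp f 2 μ → (∀ l ∈ Λ, ∫ x, f x * expo (-l) x ∂μ = 0) → f =ᵐ[μ] 0

/-- `(R, B, L)` is a Hadamard triple: the rows `l`, `l'` of the matrix have inner product `δ_{l l'}` (times `#B`) -/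
def HadamardTriple (R : Matrix (Fin d) (Fin d) ℤ) (B L : Finset (Fin d → ℤ)) : Prop :=
  L.card = B.card ∧ ∀ l ∈ L, ∀ l' ∈ L,
    ∑ b ∈ B, expo ((R.map (Int.cast : ℤ → ℝ))⁻¹ *ᵥ fun j => (b j : ℝ)) (fun i => ((l i : ℝ) - (l' i : ℝ))) =
      if l = l' then (B.card : ℂ) else 0

/-- no two different digits are congruent modulo `R ℤ^d` -/
def Simple (R : Matrix (Fin d) (Fin d) ℤ) (B : Finset (Fin d → ℤ)) : Prop :=
  ∀ b ∈ B, ∀ b' ∈ B, b ≠ b' → ¬ ∃ v : Fin d → ℤ, R *ᵥ v = b - b'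

open Classical in
theorem result : ∃ (R : Matrix (Fin 2) (Fin 2) ℤ) (B : Finset (Fin 2 → ℤ)) (μ : Measure (Fin 2 → ℝ)),
    Expanding R ∧ B.card = 4 ∧ R.det = 20 ∧ Simple R B ∧ IsSelfAffine R B μ ∧
    (∃ T, IsAttractor R B T) ∧ (∀ T, IsAttractor R B T → NoOverlap R B μ T) ∧
    Spectral μ ∧ ¬ ∃ L, HadamardTriple R B L := by
  refine ⟨Q167.HT.RR, Q167.HT.BB, Q167.HT.mu, Q167.HT.expanding, Q167.HT.card_BB, Q167.HT.det_RR,
    Q167.HT.simple, ⟨inferInstance, Q167.HT.self_affine⟩, Q167.HT.exists_attractor,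
    fun T hT => Q167.HT.no_overlap hT, ⟨Q167.HT.Lam, ?_, ?_⟩, ?_⟩
  · intro l hl l' hl'
    obtain ⟨h1, h2⟩ := Q167.HT.ortho l hl l' hl'
    split_ifs with h
    · exact h1 h
    · exact h2 h
  · intro f hf h
    refine Q167.HT.complete f hf fun l hl => ?_
    rw [← h l hl]
    refine integral_congr_ae (Filter.Eventually.of_forall fun x => ?_)
    simp only [expo, Pi.neg_apply]
    congr 2
    push_cast
    simp only [neg_mul, Finset.sum_neg_distrib, mul_neg]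
  · rintro ⟨L, hL, h⟩
    refine Q167.HT.no_triple ⟨L, hL, fun l hl l' hl' => ⟨fun h1 => ?_, fun h1 => ?_⟩⟩
    · have := h l hl l' hl'
      rw [if_pos h1] at this
      exact this
    · have := h l hl l' hl'
      rw [if_neg h1] at this
      exact this

end Pool.Agent.Results.MP_a3bfa4_an.SimpleDigits
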